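import Pool.Agent.Lib.MP_5591bc_ag.N.Set
import Pool.Agent.Lib.MP_5591bc_ag.M.Irr
import Pool.Agent.Lib.MP_5591bc_ag.M.TayB
import Pool.Agent.Lib.MP_5591bc_ag.M.SerO
import Pool.Agent.Lib.MP_5591bc_ag.M.Kit

/-! Functions and series in several variables. -/

namespace Pool.Agent.Lib.MP_5591bc_ag.N

open Matrix Filter Topology MvPowerSeries G R W M

noncomputable section

variable {σ : Type*}

section
variable {F κ : Type*} [Field F]

theorem brg_mem (Ψ : κ → MvPowerSeries σ F) (a : κ) : Ψ a ∈ SN Ψ :=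
  Algebra.subset_adjoin (.inr ⟨a, rfl⟩)

theorem brg_tm (x : σ → F) (Ψ : κ → MvPowerSeries σ F) (p : MvPolynomial σ F) :
    τm x p ∈ SN Ψ := by
  have hC : ∀ a : F, (C a : MvPowerSeries σ F) ∈ SN Ψ := fun a => (SN Ψ).algebraMap_mem a
  induction p using MvPolynomial.induction_on with
  | C a => simpa [τm] using hC a
  | add p q hp hq => exact map_add (τm x) p q ▸ add_mem hp hq
  | mul_X p l h =>
    have h0 : X l ∈ SN Ψ := Algebra.subset_adjoin (.inl ⟨l, rfl⟩)
    rw [map_mul]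
    exact mul_mem h (by simpa [τm] using add_mem h0 (hC (x l)))

theorem mem_SN (x : σ → F) {Ψ : κ → MvPowerSeries σ F} {p : MvPowerSeries σ F} :
    p ∈ SN Ψ ↔ ∃ q, evN x Ψ q = p := by
  constructor
  · intro h
    change p ∈ (evN x Ψ).range
    induction h using Algebra.adjoin_induction with
    | mem p hp =>
      rcases hp with ⟨l, rfl⟩ | ⟨a, rfl⟩
      · exact ⟨MvPolynomial.C (MvPolynomial.X l - MvPolynomial.C (x l)), by simp [evN, τm]⟩
      · exact ⟨MvPolynomial.X a, by simp [evN]⟩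
    | algebraMap c => exact ⟨MvPolynomial.C (MvPolynomial.C c), by simp [evN, τm]; rfl⟩
    | add p q _ _ hp hq => exact add_mem hp hq
    | mul p q _ _ hp hq => exact mul_mem hp hq
  · rintro ⟨q, rfl⟩
    induction q using MvPolynomial.induction_on with
    | C p => simpa [evN] using brg_tm x Ψ p
    | add p q hp hq => exact map_add (evN x Ψ) p q ▸ add_mem hp hq
    | mul_X p a hp =>
      rw [map_mul]
      exact mul_mem hp (by simpa [evN] using brg_mem Ψ a)

theorem τm_mem_SN (x : σ → F) (Ψ : κ → MvPowerSeries σ F) (p : MvPolynomial σ F) :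
    τm x p ∈ SN Ψ := by
  exact brg_tm x Ψ p

theorem evN_const (x : σ → F) (Ψ : κ → MvPowerSeries σ F) (q : MvPolynomial κ (MvPolynomial σ F)) :
    constantCoeff (evN x Ψ q) =
      MvPolynomial.eval₂ (MvPolynomial.eval x) (fun a => constantCoeff (Ψ a)) q := by
  rw [evN, MvPolynomial.map_eval₂Hom, MvPolynomial.coe_eval₂Hom]
  congr 1
  exact RingHom.ext fun p => τm_const x p

theorem DN_SN [Fintype κ] {x : σ → F} {T : MvPolynomial σ F}
    {B : σ → Matrix κ κ (MvPolynomial σ F)} {Ψ : κ → MvPowerSeries σ F} (h : IsM (τm x) T B Ψ) :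
    DN (τm x T) (SN Ψ) := by
  intro l p hp
  induction hp using Algebra.adjoin_induction with
  | mem p hp =>
    rcases hp with ⟨m, rfl⟩ | ⟨a, rfl⟩
    · have e : pderiv F l (X m : MvPowerSeries σ F) =
          τm x (MvPolynomial.pderiv l (MvPolynomial.X m - MvPolynomial.C (x m))) := by
        rw [τm_pderiv]
        simp [τm]
      rw [e]
      exact mul_mem (brg_tm x Ψ _) (brg_tm x Ψ _)
    · rw [h l a]
      exact sum_mem fun b _ => mul_mem (brg_tm x Ψ _) (brg_mem Ψ b)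
  | algebraMap c => simp
  | add p q _ _ hp hq =>
    rw [map_add, mul_add]
    exact add_mem hp hq
  | mul p q ap aq hp hq =>
    rw [Derivation.leibniz, smul_eq_mul, smul_eq_mul, mul_add, mul_left_comm, mul_left_comm _ q]
    exact add_mem (mul_mem ap hq) (mul_mem aq hp)

variable [Algebra F ℂ] {u : (σ → ℂ) → κ → ℂ}

theorem brg_C (p : MvPolynomial σ F) :
    vlN u (MvPolynomial.C p) = fun t => MvPolynomial.aeval t p := by
  ext t; simp [vlN]

theorem brg_add (p q : MvPolynomial κ (MvPolynomial σ F)) :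
    vlN u (p + q) = fun t => vlN u p t + vlN u q t := by
  ext t; simp [vlN]

theorem brg_X (p : MvPolynomial κ (MvPolynomial σ F)) (a : κ) :
    vlN u (p * MvPolynomial.X a) = fun t => vlN u p t * u t a := by
  ext t; simp [vlN]

theorem vlN_cN (q : MvPolynomial κ (MvPolynomial σ F)) : vlN u (cN q) = vlN u q := by
  funext t
  rw [vlN, vlN, MvPolynomial.eval₂_map]
  congr 1
  exact RingHom.ext fun p => MvPolynomial.aeval_map_algebraMap ℂ t p

theorem evN_cN (x : σ → F) (Ψ : κ → MvPowerSeries σ F) (q : MvPolynomial κ (MvPolynomial σ F)) :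
    evN (pc x) (fun a => mpM F (Ψ a)) (cN q) = mpM F (evN x Ψ q) := by
  induction q using MvPolynomial.induction_on with
  | C p => simpa [evN] using (τm_map (algebraMap F ℂ) x p).symm
  | add p q hp hq => simp only [map_add, hp, hq]
  | mul_X p a hp =>
    simp only [map_mul, hp]
    simp [evN]

variable [Fintype σ] [DecidableEq σ]

theorem tay_vlN {x : σ → ℂ} (hu : ∀ a, AnalyticAt ℂ (u · a) x)
    (q : MvPolynomial κ (MvPolynomial σ F)) :
    AnalyticAt ℂ (vlN u q) x ∧ tayM (vlN u q) x = evN x (fun a => tayM (u · a) x) (cN q) := by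
  induction q using MvPolynomial.induction_on with
  | C p =>
    rw [brg_C, tayM_aeval]
    exact ⟨aeval_ana p, by simp [evN]⟩
  | add p q hp hq =>
    rw [brg_add, tayM_add hp.1 hq.1, hp.2, hq.2, ← map_add, ← map_add]
    exact ⟨hp.1.fun_add hq.1, rfl⟩
  | mul_X p a hp =>
    rw [brg_X, tayM_mul hp.1 (hu _), hp.2]
    exact ⟨hp.1.fun_mul (hu _), by simp [evN]⟩

theorem tay_vlC {x : σ → ℂ} (hu : ∀ a, AnalyticAt ℂ (u · a) x)
    (q : MvPolynomial κ (MvPolynomial σ ℂ)) :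
    tayM (vlN u q) x = evN x (fun a => tayM (u · a) x) q := by
  rw [(tay_vlN hu q).2]
  congr 1
  have e : MvPolynomial.map (σ := σ) (algebraMap ℂ ℂ) = RingHom.id _ :=
    RingHom.ext fun p => MvPolynomial.map_id p
  rw [cN, e, MvPolynomial.map_id]

end

variable {ν : Type*} {U U' : Set (σ → ℂ)} {P P' Q : (σ → ℂ) → Matrix ν ν ℂ}

theorem valM_eq (q : MvPolynomial (ν × ν) (MvPolynomial σ ℂ)) :
    valM Q q = vlN (fun t a => Q t a.1 a.2) q := by
  funext t
  rw [valM, vlN]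
  congr 1

theorem ConnTN.mono {S : Subalgebra ℂ (MvPowerSeries σ ℂ)} {𝒜 ℬ : Set (MvPowerSeries σ ℂ)}
    (h : ConnTN S ℬ) (hs : 𝒜 ⊆ ℬ) : ConnTN S 𝒜 := by
  exact fun u hu v hv => h u (hs hu) v (hs hv)

variable [Fintype σ] [DecidableEq σ]

theorem connRM_iff (ho : IsOpen U) (hc : IsPreconnected U)
    (hP : ∀ t ∈ U, ∀ i j, AnalyticAt ℂ (P · i j) t) (hQ : ∀ t ∈ U, ∀ i j, AnalyticAt ℂ (Q · i j) t)
    {x : σ → ℂ} (hx : x ∈ U) : ConnRM U P Q ↔
      ConnTN (SN fun a : ν × ν => tayM (Q · a.1 a.2) x) (Set.range (evGM x (tayX P x))) := by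
  have aP : ∀ q, ∀ t ∈ U, AnalyticAt ℂ (valM P q) t := fun q t ht => (irr_val (hP t ht) q).1
  have aQ : ∀ q, ∀ t ∈ U, AnalyticAt ℂ (valM Q q) t := fun q t ht => (irr_val (hQ t ht) q).1
  have eP := fun q => (irr_val (hP x hx) q).2
  have eQ : ∀ q, tayM (valM Q q) x = evN x (fun a : ν × ν => tayM (Q · a.1 a.2) x) q :=
    fun q => (irr_val (hQ x hx) q).2
  generalize evGM x (tayX P x) = E at eP ⊢
  generalize (fun a : ν × ν => tayM (Q · a.1 a.2) x) = Ψ at eQ ⊢
  have KP : ∀ q, (∃ t ∈ U, valM P q t ≠ 0) ↔ E q ≠ 0 := fun q => by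
    rw [Ne, ← eP, ← identM ho hc (aP q) hx]
    simp
  have KQ : ∀ q, (∃ t ∈ U, valM Q q t ≠ 0) ↔ evN x Ψ q ≠ 0 := fun q => by
    rw [Ne, ← eQ, ← identM ho hc (aQ q) hx]
    simp
  have K1 : ∀ u v, ∀ (n : ℕ) (p : ℕ → MvPolynomial (ν × ν) (MvPolynomial σ ℂ)),
      (∀ t ∈ U, ∑ j ∈ Finset.range (n + 1),
        valM Q (p j) t * valM P u t ^ j * valM P v t ^ (n - j) = 0) ↔
      ∑ j ∈ Finset.range (n + 1), evN x Ψ (p j) * E u ^ j * E v ^ (n - j) = 0 := fun u v n p => by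
    have a : ∀ j, ∀ t ∈ U, AnalyticAt ℂ
        (fun t => valM Q (p j) t * valM P u t ^ j * valM P v t ^ (n - j)) t := fun j t ht =>
      ((aQ _ t ht).fun_mul ((aP u t ht).fun_pow j)).fun_mul ((aP v t ht).fun_pow _)
    rw [identM ho hc (fun t ht => Finset.analyticAt_fun_sum _ fun j _ => a j t ht) hx,
      tayM_sum _ fun j _ => a j x hx]
    refine Eq.congr_left (Finset.sum_congr rfl fun j _ => ?_)
    rw [tayM_mul ((aQ _ x hx).fun_mul ((aP u x hx).fun_pow j)) ((aP v x hx).fun_pow _),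
      tayM_mul (aQ _ x hx) ((aP u x hx).fun_pow j), tayM_pow (aP u x hx), tayM_pow (aP v x hx), eQ,
      eP, eP]
  have K2 : ∀ u v a b, (∀ t ∈ U, valM Q b t * valM P u t = valM Q a t * valM P v t) ↔
      evN x Ψ b * E u = evN x Ψ a * E v := fun u v a b => by
    have a1 := fun t ht => (aQ b t ht).fun_mul (aP u t ht)
    have a2 := fun t ht => (aQ a t ht).fun_mul (aP v t ht)
    have := identM ho hc (fun t ht => (a1 t ht).fun_sub (a2 t ht)) hx
    rw [tayM_sub (a1 x hx) (a2 x hx), tayM_mul (aQ b x hx) (aP u x hx),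
      tayM_mul (aQ a x hx) (aP v x hx), eQ, eQ, eP, eP] at this
    simpa only [sub_eq_zero] using this
  constructor
  · rintro h _ ⟨u, rfl⟩ _ ⟨v, rfl⟩ n p hS hv ⟨j, hj, hp⟩ e
    choose q hq using fun j => (mem_SN x).1 (hS j)
    simp only [← hq] at hp e
    obtain ⟨a, b, hb, r⟩ := h u v n q ((KP v).2 hv) ⟨j, hj, (KQ _).2 hp⟩ ((K1 u v n q).2 e)
    exact ⟨_, (mem_SN x).2 ⟨a, rfl⟩, _, (mem_SN x).2 ⟨b, rfl⟩, (KQ b).1 hb, (K2 u v a b).1 r⟩
  · rintro h u v n p hv ⟨j, hj, hp⟩ e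
    obtain ⟨a, ha, b, hb, b0, r⟩ := h _ ⟨u, rfl⟩ _ ⟨v, rfl⟩ n (fun j => evN x Ψ (p j))
      (fun j => (mem_SN x).2 ⟨_, rfl⟩) ((KP v).1 hv) ⟨j, hj, (KQ _).1 hp⟩ ((K1 u v n p).1 e)
    obtain ⟨a, rfl⟩ := (mem_SN x).1 ha
    obtain ⟨b, rfl⟩ := (mem_SN x).1 hb
    exact ⟨a, b, (KQ b).2 b0, (K2 u v a b).2 r⟩

omit [DecidableEq σ] in
theorem brg_cont (ho : IsOpen U) (hc : IsPreconnected U)
    (hP : ∀ t ∈ U, ∀ i j, AnalyticAt ℂ (P · i j) t) (h : ContM U P U' P') :
    IsOpen U' ∧ IsPreconnected U' ∧ ∀ t ∈ U', ∀ i j, AnalyticAt ℂ (P' · i j) t := by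
  cases h with
  | base => exact ⟨ho, hc, hP⟩
  | step U1 _ P1 _ p _ o2 c2 a2 => exact ⟨o2, c2, fun t ht i j => a2 i j t ht⟩

theorem link_of (ho : IsOpen U) (hc : IsPreconnected U)
    (hP : ∀ t ∈ U, ∀ i j, AnalyticAt ℂ (P · i j) t) {s x : σ → ℂ} (hs : s ∈ U) (hx : x ∈ U) :
    Link s P x P := by
  intro q
  have a : ∀ t ∈ U, AnalyticAt ℂ (valM P q) t := fun t ht => (irr_val (hP t ht) q).1
  rw [← tayM_eq_zero_iff (a s hs), ← tayM_eq_zero_iff (a x hx), ← identM ho hc a hs,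
    ← identM ho hc a hx]

theorem link_cont (ho : IsOpen U) (hc : IsPreconnected U)
    (hP : ∀ t ∈ U, ∀ i j, AnalyticAt ℂ (P · i j) t) (h : ContM U P U' P') {s x : σ → ℂ}
    (hs : s ∈ U) (hx : x ∈ U') : Link s P x P' := by
  induction h generalizing x with
  | base => exact link_of ho hc hP hs hx
  | step U1 U2 P1 P2 p _ o2 c2 a2 p1 p2 e ih =>
    intro q
    refine (ih p1 q).trans (Iff.trans ?_ (link_of o2 c2 (fun t ht i j => a2 i j t ht) p2 hx q))
    exact eventually_congr (e.mono fun t ht => by simp only [valM, ht])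

variable [Fintype ν] [DecidableEq ν]

omit [DecidableEq σ] [DecidableEq ν] in
theorem brg_an (hP : ∀ t ∈ U, ∀ i j, AnalyticAt ℂ (P · i j) t) (C1 : Matrix ν ν ℂ) :
    ∀ t ∈ U, ∀ i j, AnalyticAt ℂ (fun t => (P t * C1) i j) t := fun t ht i _ =>
  Finset.analyticAt_fun_sum _ fun a _ => (hP t ht i a).fun_mul analyticAt_const

omit [Fintype σ] [DecidableEq σ] in
theorem brg_isM {k S : Type*} [CommRing k] [CommRing S]
    {τ : MvPolynomial σ k →+* MvPowerSeries σ S} {T : MvPolynomial σ k}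
    {B : σ → Matrix ν ν (MvPolynomial σ k)} {Y : Matrix ν ν (MvPowerSeries σ S)}
    (h : ∀ l, τ T • Y.map (pderiv S l) = (B l).map τ * Y) (z : Matrix ν ν S) :
    IsM τ T (BU B) fun a => (Y * z.map C : Matrix ν ν _) a.1 a.2 := fun l a => by
  have e : (z.map C : Matrix ν ν (MvPowerSeries σ S)).map (pderiv S l) = 0 := by
    ext1 i j
    exact (pderiv S l).map_algebraMap (z i j)
  have h1 := congrArg (τ T • ·) (serG_mul (pderiv S l) Y (z.map C))
  simp only [e, Matrix.mul_zero, add_zero, ← Matrix.smul_mul, h, Matrix.mul_assoc] at h1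
  refine (congrFun₂ h1 a.1 a.2).trans ?_
  rw [mul_apply, Fintype.sum_prod_type]
  refine Finset.sum_congr rfl fun k _ => ?_
  simp [BU, apply_ite τ, ite_mul]

/-- connectedness passes to the continuations -/
theorem ConnRM.cont (ho : IsOpen U) (hc : IsPreconnected U)
    (hP : ∀ t ∈ U, ∀ i j, AnalyticAt ℂ (P · i j) t) (C1 : Matrix ν ν ℂ)
    (h : ConnRM U P fun t => P t * C1) (hU : ContM U P U' P') :
    ConnRM U' P' fun t => P' t * C1 := by
  induction hU with
  | base => exact h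
  | step U1 U2 P1 P2 p h1 o2 c2 a2 p1 p2 e ih =>
    obtain ⟨o1, c1, a1⟩ := brg_cont ho hc hP h1
    have a3 : ∀ t ∈ U2, ∀ i j, AnalyticAt ℂ (P2 · i j) t := fun t ht i j => a2 i j t ht
    rw [connRM_iff o1 c1 a1 (brg_an a1 C1) p1] at ih
    rw [connRM_iff o2 c2 a3 (brg_an a3 C1) p2]
    have e1 : tayX P2 p = tayX P1 p := by
      ext1 i j
      exact tayM_congr (g := (P2 · i j)) (h := (P1 · i j)) (e.mono fun t ht => by simp only [ht])
    have e2 : (fun a : ν × ν => tayM (fun t => (P2 t * C1) a.1 a.2) p) =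
        fun a : ν × ν => tayM (fun t => (P1 t * C1) a.1 a.2) p :=
      funext fun a => tayM_congr (e.mono fun t ht => by simp only [ht])
    rwa [e1, e2]

/-- polynomials in `t` and in the entries of the `P * M i` -/
theorem Link.mv {s x : σ → ℂ} (h : Link s P x P') {ι : Type*} (M : ι → Matrix ν ν ℂ)
    (q : MvPolynomial (ι × ν × ν) (MvPolynomial σ ℂ)) :
    (∀ᶠ t in 𝓝 s, vlN (fun t a => (P t * M a.1) a.2.1 a.2.2) q t = 0) ↔
      ∀ᶠ t in 𝓝 x, vlN (fun t a => (P' t * M a.1) a.2.1 a.2.2) q t = 0 := by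
  have k : ∀ (Y : (σ → ℂ) → Matrix ν ν ℂ) t, vlN (fun t a => (Y t * M a.1) a.2.1 a.2.2) q t =
      valM Y (MvPolynomial.eval₂Hom MvPolynomial.C (fun a : ι × ν × ν =>
        ∑ k, MvPolynomial.X (a.2.1, k) * MvPolynomial.C (MvPolynomial.C (M a.1 k a.2.2))) q) t :=
    fun Y t => by
    induction q using MvPolynomial.induction_on with
    | C p => simp [vlN, valM]
    | add p q hp hq =>
      rw [brg_add, map_add]
      simp only [hp, hq, valM, MvPolynomial.eval₂_add]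
    | mul_X p a hp =>
      rw [brg_X, map_mul]
      simp only [hp, valM, MvPolynomial.eval₂_mul]
      simp [MvPolynomial.eval₂_sum, mul_apply]
  simp only [k]
  exact h _

variable {K : Type*} [Field K] [Algebra K ℂ] {T : MvPolynomial σ K}
  {B : σ → Matrix ν ν (MvPolynomial σ K)}

theorem uuN_an (hP : FundM T B U P) (C1 : Matrix ν ν ℂ) {s : σ → ℂ} (hs : s ∈ U) (a : ν × ν) :
    AnalyticAt ℂ (uuN P C1 · a) s := by
  exact serG_ana hP C1 hs a.1 a.2

/-- the system of the entries of `P * C1` -/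
theorem uuN_ode (ho : IsOpen U) (hP : FundM T B U P) (C1 : Matrix ν ν ℂ) {s : σ → ℂ} (hs : s ∈ U) :
    IsM (τm s) (TM ℂ T) (BM ℂ (BU B)) fun a => tayM (uuN P C1 · a) s := by
  have e1 : BM ℂ (BU B) = BU (BM ℂ B) := by
    ext1 l
    ext1 a b
    by_cases e : a.2 = b.2 <;> simp [BU, e]
  have e2 : (fun a : ν × ν => tayM (uuN P C1 · a) s) =
      fun a : ν × ν => (tayX P s * C1.map C : Matrix ν ν _) a.1 a.2 :=
    funext fun a => congrFun₂ (tayX_mul hP C1 hs) a.1 a.2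
  rw [e1, e2]
  exact brg_isM (hP.ode ho hs) C1

theorem uuN_tay (ho : IsOpen U) (hP : FundM T B U P) {C1 : Matrix ν ν ℂ} {x : σ → K}
    (hx : pc x ∈ U) (hT : MvPolynomial.eval x T ≠ 0) {z : Matrix ν ν K}
    (hz : z.map (algebraMap K ℂ) = P (pc x) * C1) (a : ν × ν) :
    tayM (uuN P C1 · a) (pc x) = mpM K (psiN T B x z a) := by
  have e : (uuN P C1 · a) =
      fun t => (P t * (P (pc x))⁻¹ * z.map (algebraMap K ℂ) : Matrix ν ν ℂ) a.1 a.2 :=
    funext fun t => by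
      rw [hz, Matrix.mul_assoc, nonsing_inv_mul_cancel_left _ _ (hP _ hx).1.isUnit, uuN]
  rw [e]
  refine (congrFun₂ (tayX_mul (hP.inv hx) _ hx) a.1 a.2).trans ?_
  rw [tayX_G ho hP hx hT]
  simp [psiN, mul_apply]

theorem uuN_odeK (ho : IsOpen U) (hP : FundM T B U P) {x : σ → K} (hx : pc x ∈ U)
    (hT : MvPolynomial.eval x T ≠ 0) (z : Matrix ν ν K) :
    IsM (τm x) T (BU B) (psiN T B x z) := by
  exact brg_isM (GbM_ode ho hP hx hT) z

theorem psiN_const (T : MvPolynomial σ K) (B : σ → Matrix ν ν (MvPolynomial σ K)) (x : σ → K)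
    (z : Matrix ν ν K) (a : ν × ν) : constantCoeff (psiN T B x z a) = z a.1 a.2 := by
  have := congrFun₂ (Matrix.map_mul (f := constantCoeff) (L := GbM T B x) (M := z.map C)) a.1 a.2
  rw [GbM_zero, Matrix.one_mul] at this
  simpa [psiN] using this

end

end Pool.Agent.Lib.MP_5591bc_ag.N
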