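import Pool.Agent.Lib.MP_5591bc_ag.N.Set
import Pool.Agent.Lib.MP_5591bc_ag.M.Good
import Pool.Agent.Lib.MP_5591bc_ag.W.Sym

/-! From the linear form of the degree property to the degree property. -/

namespace Pool.Agent.Lib.MP_5591bc_ag.N

open Matrix Filter Topology MvPowerSeries G R W M

noncomputable section

theorem good_evN {K S σ κ : Type*} [Field K] [CommRing S] [Algebra K S] (t : σ → S) (u y : κ → S)
    (q : MvPolynomial κ (MvPolynomial σ K)) : MvPolynomial.aeval (Sum.elim t (Sum.elim u y))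
      (MvPolynomial.eval₂ (MvPolynomial.rename Sum.inl).toRingHom
        (fun a => MvPolynomial.X (Sum.inr (Sum.inl a))) q : MvPolynomial (σ ⊕ κ ⊕ κ) K) =
      MvPolynomial.eval₂ (MvPolynomial.aeval t).toRingHom u q := by
  induction q using MvPolynomial.induction_on with
  | C a => simp [MvPolynomial.aeval_rename]
  | add p q hp hq => rw [MvPolynomial.eval₂_add, MvPolynomial.eval₂_add, map_add, hp, hq]
  | mul_X p i hp =>
    rw [MvPolynomial.eval₂_mul, MvPolynomial.eval₂_mul, map_mul, hp]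
    simp

variable {σ K ν : Type*} [Fintype σ] [DecidableEq σ] [Field K] [Algebra K ℂ] [Fintype ν]
  [DecidableEq ν] {U : Set (σ → ℂ)} {P : (σ → ℂ) → Matrix ν ν ℂ} {C1 C0 : Matrix ν ν ℂ} {δ : ℕ}
  {x : σ → K} {z : Matrix ν ν K}

omit [DecidableEq σ] [DecidableEq ν] in
theorem good_vanN (hc : IsPreconnected U) (hP : ∀ t ∈ U, ∀ i j, AnalyticAt ℂ (P · i j) t)
    (H : MvPolynomial (σ ⊕ (ν × ν) ⊕ (ν × ν)) K) {s : σ → ℂ} (hs : s ∈ U)
    (h : ∀ᶠ t in 𝓝 s, MvPolynomial.aeval (Sum.elim t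
      (Sum.elim (fun a => (P t * C1) a.1 a.2) fun a => (P t * C0) a.1 a.2)) H = 0) :
    ∀ t ∈ U, MvPolynomial.aeval (Sum.elim t
      (Sum.elim (fun a => (P t * C1) a.1 a.2) fun a => (P t * C0) a.1 a.2)) H = 0 := by
  refine goodV_id hc (fun t ht => AnalyticAt.aeval_mvPolynomial ?_ H) hs h
  rintro (l | a | a)
  exacts [(ContinuousLinearMap.proj (R := ℂ) (φ := fun _ : σ => ℂ) l).analyticAt t,
    Finset.analyticAt_fun_sum _ fun l _ => (hP t ht a.1 l).fun_mul analyticAt_const,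
    Finset.analyticAt_fun_sum _ fun l _ => (hP t ht a.1 l).fun_mul analyticAt_const]

theorem goodRM_of (ho : IsOpen U) (hc : IsPreconnected U)
    (hP : ∀ t ∈ U, ∀ i j, AnalyticAt ℂ (P · i j) t) (hx : pc x ∈ U) (h : ∀ F : Mo δ ν → K,
      (fun μ => algebraMap K ℂ (F μ)) ⬝ᵥ mono δ (P (pc x) * C0) = 0 → LGN P C1 C0 δ x z F) :
    GoodRM U P C1 C0 δ x z := by
  intro F hF hF0
  obtain ⟨c, rfl⟩ := V.rep hF
  obtain ⟨g, g1, g2⟩ := h c ((V.rep_eval c (algebraMap K ℂ) _).symm.trans hF0)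
  refine ⟨∑ μ, MvPolynomial.eval₂ (MvPolynomial.rename Sum.inl).toRingHom
    (fun a => MvPolynomial.X (Sum.inr (Sum.inl a))) (g μ) *
    ∏ l, (μ l).elim 1 fun y => MvPolynomial.X (Sum.inr (Sum.inr y)), fun U' P' hU => ?_, ?_⟩
  · generalize hH : (∑ μ, MvPolynomial.eval₂ (MvPolynomial.rename Sum.inl).toRingHom
      (fun a => MvPolynomial.X (Sum.inr (Sum.inl a))) (g μ) *
      ∏ l, (μ l).elim 1 fun y => MvPolynomial.X (Sum.inr (Sum.inr y)) :
        MvPolynomial (σ ⊕ (ν × ν) ⊕ (ν × ν)) K) = H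
    have hp : ∀ t : σ → ℂ, MvPolynomial.aeval (Sum.elim t
        (Sum.elim (fun a => (P t * C1) a.1 a.2) fun a => (P t * C0) a.1 a.2)) H =
          (fun μ => vlN (uuN P C1) (g μ) t) ⬝ᵥ mono δ (P t * C0) := fun t => by
      rw [← hH, map_sum]
      refine Finset.sum_congr rfl fun μ _ => ?_
      rw [map_mul, good_evN, map_prod]
      exact congrArg₂ _ rfl (Finset.prod_congr rfl fun l _ => by cases e : μ l <;> simp [hatg])
    suffices IsOpen U' ∧ ∀ t ∈ U', MvPolynomial.aeval (Sum.elim t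
      (Sum.elim (fun a => (P' t * C1) a.1 a.2) fun a => (P' t * C0) a.1 a.2)) H = 0 from this.2
    induction hU with
    | base => exact ⟨ho, good_vanN hc hP H hx (g2.mono fun t ht => (hp t).trans ht)⟩
    | step U1 U2 P1 P2 s' _ o2 c2 d2 s1 s2 e ih =>
      refine ⟨o2, good_vanN c2 (fun t ht i j => d2 i j t ht) H s2 ?_⟩
      filter_upwards [e, ih.1.mem_nhds s1] with t h3 h4
      rw [← h3]
      exact ih.2 t h4
  · rw [map_sum]
    refine Finset.sum_congr rfl fun μ _ => ?_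
    rw [map_mul, good_evN, map_prod]
    refine congrArg₂ _ ?_ (Finset.prod_congr rfl fun l _ => by cases e : μ l <;> simp [hatg])
    beta_reduce
    rw [← g1, MvPolynomial.eval₂_comp_left MvPolynomial.C]
    refine congrArg₂ (MvPolynomial.eval₂ · · (g μ)) (MvPolynomial.ringHom_ext (fun a => ?_)
      fun l => ?_) rfl
    · simp
    · simp

/-- a bad covector can be taken symmetric -/
theorem exists_syN {F : Mo δ ν → K} (hn : ¬ LGN P C1 C0 δ x z F) : ∃ F' : Mo δ ν → K, Sy F' ∧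
    ¬ LGN P C1 C0 δ x z F' ∧ ∀ Y : Matrix ν ν ℂ, (fun μ => algebraMap K ℂ (F' μ)) ⬝ᵥ mono δ Y =
      (fun μ => algebraMap K ℂ (F μ)) ⬝ᵥ mono δ Y := by
  have : CharZero K := (algebraMap K ℂ).charZero
  have n0 : (Fintype.card (Equiv.Perm (Fin δ)) : ℂ) ≠ 0 := Nat.cast_ne_zero.2 Fintype.card_ne_zero
  obtain ⟨F', hF⟩ : ∃ F' : Mo δ ν → K, F' = fun μ =>
    (Fintype.card (Equiv.Perm (Fin δ)) : K)⁻¹ * ∑ π : Equiv.Perm (Fin δ), F (μ ∘ π) := ⟨_, rfl⟩
  have e : ∀ Y : Matrix ν ν ℂ, (fun μ => algebraMap K ℂ (F' μ)) ⬝ᵥ mono δ Y =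
      (fun μ => algebraMap K ℂ (F μ)) ⬝ᵥ mono δ Y := fun Y => by
    simp only [hF, dotProduct, map_mul, map_inv₀, map_natCast, map_sum, mul_assoc,
      ← Finset.mul_sum, Finset.sum_mul]
    rw [Finset.sum_comm, inv_mul_eq_iff_eq_mul₀ n0, ← Finset.card_univ, ← nsmul_eq_mul,
      ← Finset.sum_const]
    refine Finset.sum_congr rfl fun π _ => ?_
    rw [← sy_sum π fun μ => algebraMap K ℂ (F μ) * mono δ Y μ]
    exact Finset.sum_congr rfl fun μ _ =>
      congrArg _ (Equiv.prod_comp π fun l => hatg Y (μ l)).symm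
  refine ⟨F', fun π μ => ?_, fun ⟨h, h1, h2⟩ => hn ⟨fun μ => h μ +
    MvPolynomial.C (MvPolynomial.C (F μ - F' μ)), fun μ => by simp [MvPolynomial.eval₂_add, h1],
    h2.mono fun t h3 => ?_⟩, e⟩
  · simp only [hF]
    exact congrArg _ (Equiv.sum_comp (Equiv.mulLeft π) fun π => F (μ ∘ π))
  · have h4 := e (P t * C0)
    simp only [dotProduct, vlN, MvPolynomial.eval₂_add, MvPolynomial.eval₂_C,
      AlgHom.toRingHom_eq_coe, RingHom.coe_coe, MvPolynomial.aeval_C, map_sub (algebraMap K ℂ),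
      add_mul, sub_mul, Finset.sum_add_distrib, Finset.sum_sub_distrib] at h3 h4 ⊢
    rw [h3, h4, sub_self, add_zero]

/-- for `C1 = 0` and `C0 = 1` the relative notions are the absolute ones -/
theorem connRM_zero (ho : IsOpen U) (h : ConnM U P) :
    ConnRM U P fun t => P t * 0 := by
  have e : ∀ q t, valM (fun t => P t * (0 : Matrix ν ν ℂ)) q t =
      MvPolynomial.eval t (MvPolynomial.constantCoeff q) := fun q t => by
    unfold valM
    induction q using MvPolynomial.induction_on with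
    | C a => simp
    | add p q hp hq => rw [MvPolynomial.eval₂_add, hp, hq, map_add, map_add]
    | mul_X p i hp => simp
  intro u v n p hv ⟨j, j1, t, _, j2⟩ hr
  simp only [e] at j2 hr ⊢
  obtain ⟨a, b, b0, hab⟩ := h u v n (fun j => MvPolynomial.constantCoeff (p j)) hv
    ⟨j, j1, fun h0 => j2 (by rw [h0, map_zero])⟩ hr
  refine ⟨MvPolynomial.C a, MvPolynomial.C b, ?_, by simpa using hab⟩
  by_contra hn
  push Not at hn
  obtain ⟨s, hs, -⟩ := hv
  refine b0 (MvPolynomial.funext fun y => ?_)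
  rw [map_zero]
  exact goodV_id isPreconnected_univ (AnalyticOnNhd.eval_mvPolynomial b) (Set.mem_univ s)
    (mem_of_superset (ho.mem_nhds hs) fun t ht => by simpa using hn t ht) y trivial

theorem GoodRM.goodV (h : GoodRM U P 0 1 δ x 0) : GoodV U P δ x := by
  intro F hF hF0
  obtain ⟨H, h1, h2⟩ := h F hF (by simpa only [Matrix.mul_one] using hF0)
  refine ⟨MvPolynomial.aeval (Sum.elim (fun l => MvPolynomial.X (Sum.inl l))
    (Sum.elim (fun _ => 0) fun a => MvPolynomial.X (Sum.inr a))) H, fun U' P' hU t ht => ?_, ?_⟩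
  · rw [← AlgHom.comp_apply, MvPolynomial.comp_aeval, ← h1 U' P' hU t ht]
    congr 2
    ext (l | a | a) <;> simp
  · rw [← AlgHom.comp_apply, MvPolynomial.comp_aeval, ← h2]
    congr 2
    funext o
    rcases o with l | a | a <;> simp

end

end Pool.Agent.Lib.MP_5591bc_ag.N
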