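import Pool.Agent.Lib.MP_5591bc_ag.N.Set
import Pool.Agent.Lib.MP_5591bc_ag.M.DescA

/-! Descent of a complex relation to the field of the point. -/

namespace Pool.Agent.Lib.MP_5591bc_ag.N

open Matrix Filter Topology MvPowerSeries G R W M

noncomputable section

section

variable {σ F A κ : Type*} [Field F] [Fintype A]

theorem descA_der {t : MvPowerSeries σ F} {N : A → A → MvPowerSeries σ F} {l : σ}
    {Φ : A → MvPowerSeries σ F} (h : ∀ μ, t * pderiv F l (Φ μ) = ∑ η, N μ η * Φ η)
    (ρ : A → MvPowerSeries σ F) : ∑ a, (t * pderiv F l (ρ a) + ∑ b, ρ b * N b a) * Φ a =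
      t * pderiv F l (∑ a, ρ a * Φ a) := by
  simp only [add_mul, map_sum, Derivation.leibniz, Finset.mul_sum, mul_add, Finset.sum_add_distrib,
    Finset.sum_mul, smul_eq_mul]
  rw [add_comm, Finset.sum_comm]
  refine congrArg₂ _ (Finset.sum_congr rfl fun μ _ => ?_) (Finset.sum_congr rfl fun μ _ => by ring)
  rw [mul_left_comm, h μ, Finset.mul_sum]
  exact Finset.sum_congr rfl fun _ _ => by ring

theorem descA_orth [DecidableEq A] {t c : MvPowerSeries σ F} {N : A → A → MvPowerSeries σ F} {l : σ}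
    {r g : A → MvPowerSeries σ F} (h0 : ∑ a, r a * g a = 0)
    (h1 : ∑ a, (t * pderiv F l (r a) + ∑ b, r b * ((if b = a then c else 0) - N a b)) * g a = 0) :
    ∑ a, r a * (t * pderiv F l (g a) + ∑ b, g b * N b a) = 0 := by
  have h2 := congrArg (fun z => t * pderiv F l z) h0
  have h3 : ∑ a, r a * ∑ b, g b * N b a = ∑ a, (∑ b, r b * N a b) * g a := by
    simp only [Finset.mul_sum, Finset.sum_mul]
    rw [Finset.sum_comm]
    exact Finset.sum_congr rfl fun _ _ => Finset.sum_congr rfl fun _ _ => by ring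
  have h4 : ∑ a, r a * c * g a = c * ∑ a, r a * g a := by
    rw [Finset.mul_sum]
    exact Finset.sum_congr rfl fun _ _ => by ring
  have h5 : t * pderiv F l (∑ a, r a * g a) =
      ∑ a, r a * (t * pderiv F l (g a)) + ∑ a, t * pderiv F l (r a) * g a := by
    simp only [map_sum, Derivation.leibniz, Finset.mul_sum, smul_eq_mul, ← Finset.sum_add_distrib]
    exact Finset.sum_congr rfl fun _ _ => by ring
  simp only [mul_sub, Finset.sum_sub_distrib, mul_ite, mul_zero, Finset.sum_ite_eq',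
    Finset.mem_univ, if_true, add_mul, sub_mul, Finset.sum_add_distrib] at h1
  simp only [mul_add, Finset.sum_add_distrib]
  rw [h5, map_zero, mul_zero] at h2
  rw [h4, h0, mul_zero] at h1
  linear_combination h2 - h1 + h3

theorem descA_C (x : σ → F) (Ψ : κ → MvPowerSeries σ F) (p : MvPolynomial σ F) :
    evN x Ψ (MvPolynomial.C p) = τm x p := MvPolynomial.eval₂Hom_C _ _ _

theorem descA_X (x : σ → F) (Ψ : κ → MvPowerSeries σ F) (a : κ) :
    evN x Ψ (MvPolynomial.X a) = Ψ a := MvPolynomial.eval₂Hom_X' _ _ _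

variable [Algebra F ℂ]

theorem descA_cN (x : σ → F) (Ψ : κ → MvPowerSeries σ F)
    (q : MvPolynomial κ (MvPolynomial σ F)) :
    evN (pc x) (fun a => mpM F (Ψ a)) (cN q) = mpM F (evN x Ψ q) := by
  induction q using MvPolynomial.induction_on with
  | C p => rw [cN, MvPolynomial.map_C, descA_C, descA_C, ← da_map]
  | add p q hp hq => simp only [map_add, hp, hq]
  | mul_X p a hp => simp only [map_mul, hp, MvPolynomial.map_X, descA_X]

/-- the symbolic derivation, valid at both points -/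
theorem descA_sym [Fintype κ] {T : MvPolynomial σ F} {Bu : σ → Matrix κ κ (MvPolynomial σ F)}
    {x : σ → F} {s : σ → ℂ} {Ψ : κ → MvPowerSeries σ F} (hΨ : IsM (τm x) T Bu Ψ)
    {Ψ' : κ → MvPowerSeries σ ℂ} (hΨ' : IsM (τm s) (TM ℂ T) (BM ℂ Bu) Ψ') (l : σ)
    (q : MvPolynomial κ (MvPolynomial σ F)) : ∃ q' : MvPolynomial κ (MvPolynomial σ F),
      evN x Ψ q' = τm x T * pderiv F l (evN x Ψ q) ∧
      evN s Ψ' (cN q') = τm s (TM ℂ T) * pderiv ℂ l (evN s Ψ' (cN q)) := by
  induction q using MvPolynomial.induction_on with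
  | C p =>
    refine ⟨MvPolynomial.C (T * MvPolynomial.pderiv l p), ?_, ?_⟩
    · rw [descA_C, descA_C, map_mul, frT_pderiv]
    · rw [cN, cN, MvPolynomial.map_C, MvPolynomial.map_C, descA_C, descA_C, map_mul, map_mul,
        ← frT_pderiv, MvPolynomial.pderiv_map]
  | add p q hp hq =>
    obtain ⟨p', a1, a2⟩ := hp
    obtain ⟨q', b1, b2⟩ := hq
    exact ⟨p' + q', by simp only [map_add, a1, b1, mul_add], by
      simp only [map_add, a2, b2, mul_add]⟩
  | mul_X p a hp =>
    obtain ⟨p', a1, a2⟩ := hp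
    refine ⟨p' * MvPolynomial.X a + p * ∑ b, MvPolynomial.C (Bu l a b) * MvPolynomial.X b, ?_, ?_⟩
    · simp only [map_add, map_mul, map_sum, descA_C, descA_X, a1, Derivation.leibniz, smul_eq_mul,
        ← hΨ l a]
      ring
    · have := hΨ' l a
      simp only [map_apply] at this
      simp only [map_add, map_mul, map_sum, MvPolynomial.map_C, MvPolynomial.map_X, descA_C,
        descA_X, a2, Derivation.leibniz, smul_eq_mul, ← this]
      ring

/-- a linear form applied to the coefficients -/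
def descA_rep (π : Module.Dual F ℂ) : MvPowerSeries σ ℂ →+ MvPowerSeries σ F where
  toFun f := fun n => π (coeff n f)
  map_zero' := funext fun n => by rw [map_zero, map_zero]; rfl
  map_add' f g := funext fun n => by rw [map_add, map_add]; rfl

theorem descA_coeff (π : Module.Dual F ℂ) (f : MvPowerSeries σ ℂ) (n : σ →₀ ℕ) :
    coeff n (descA_rep π f) = π (coeff n f) := rfl

theorem descA_mul (π : Module.Dual F ℂ) (f : MvPowerSeries σ ℂ) (g : MvPowerSeries σ F) :
    descA_rep π (f * mpM F g) = descA_rep π f * g := by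
  classical
  ext n
  simp only [descA_coeff, coeff_mul, map_sum, coeff_map]
  refine Finset.sum_congr rfl fun i _ => ?_
  rw [mul_comm (coeff _ _), ← Algebra.smul_def, map_smul, smul_eq_mul, mul_comm]

theorem descA_mem (π : Module.Dual F ℂ) (x : σ → F) (Ψ : κ → MvPowerSeries σ F)
    (q : MvPolynomial κ (MvPolynomial σ ℂ)) :
    ∃ p, evN x Ψ p = descA_rep π (evN (pc x) (fun a => mpM F (Ψ a)) q) := by
  induction q using MvPolynomial.induction_on with
  | C r =>
    obtain ⟨p, hp⟩ := da_pi π x r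
    exact ⟨MvPolynomial.C p, by rw [descA_C, descA_C]; exact MvPowerSeries.ext hp⟩
  | add p q hp hq =>
    obtain ⟨p', a1⟩ := hp
    obtain ⟨q', b1⟩ := hq
    exact ⟨p' + q', by simp only [map_add, a1, b1]⟩
  | mul_X p a hp =>
    obtain ⟨p', a1⟩ := hp
    exact ⟨p' * MvPolynomial.X a, by rw [map_mul, map_mul, descA_X, descA_X, descA_mul, a1]⟩

end

theorem desc_absN {σ F A κ : Type*} [Field F] [Algebra F ℂ] [Fintype A] [DecidableEq A] [Fintype κ]
    {T : MvPolynomial σ F} {τ : σ → MvPolynomial σ F} {B : σ → Matrix A A (MvPolynomial σ F)}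
    {Bu : σ → Matrix κ κ (MvPolynomial σ F)} {x : σ → F} (hx : MvPolynomial.eval x T ≠ 0)
    {s : σ → ℂ} (hs : MvPolynomial.aeval s T ≠ 0) {Φ : A → MvPowerSeries σ F}
    (hΦ : IsM (τm x) T (fun l => τ l • 1 - (B l)ᵀ) Φ) {Ψ : κ → MvPowerSeries σ F}
    (hΨ : IsM (τm x) T Bu Ψ) {y : A → MvPowerSeries σ ℂ} (hy : IsM (τm s) (TM ℂ T) (BM ℂ B) y)
    {Ψ' : κ → MvPowerSeries σ ℂ} (hΨ' : IsM (τm s) (TM ℂ T) (BM ℂ Bu) Ψ')
    (link : ∀ q, evN (pc x) (fun a => mpM F (Ψ a)) q = 0 → evN s Ψ' q = 0)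
    {q : A → MvPolynomial κ (MvPolynomial σ ℂ)}
    (hq : ∑ a, evN (pc x) (fun a => mpM F (Ψ a)) (q a) * mpM F (Φ a) = 0)
    (hq0 : ∀ a, constantCoeff (evN s Ψ' (q a)) = constantCoeff (y a)) :
    ∃ h : A → MvPolynomial κ (MvPolynomial σ F),
      (∀ a, constantCoeff (evN x Ψ (h a)) = constantCoeff (Φ a)) ∧
      ∑ a, evN s Ψ' (cN (h a)) * y a = 0 := by
  have : CharZero F := RingHom.charZero (algebraMap F ℂ)
  choose D D1 D2 using descA_sym hΨ hΨ'
  have st : ∀ l (ρ : A → MvPowerSeries σ F), ∑ a, ρ a * Φ a = 0 →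
      ∑ a, (τm x T * pderiv F l (ρ a) + ∑ b, ρ b * τm x ((τ l • 1 - (B l)ᵀ :
        Matrix A A (MvPolynomial σ F)) b a)) * Φ a = 0 := fun l ρ h => by
    rw [descA_der (hΦ l), h, map_zero, mul_zero]
  let e := evN x Ψ
  let S : Submodule e.range (A → e.range) :=
    { carrier := {ρ | ∑ a, (ρ a : MvPowerSeries σ F) * Φ a = 0}
      add_mem' := fun {a b} ha hb => by
        simp only [Set.mem_ofPred_eq, Pi.add_apply, Subring.coe_add, add_mul,
          Finset.sum_add_distrib] at *
        rw [ha, hb, add_zero]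
      zero_mem' := by simp
      smul_mem' := fun c a ha => by
        simp only [Set.mem_ofPred_eq, Pi.smul_apply, smul_eq_mul, Subring.coe_mul, mul_assoc,
          ← Finset.mul_sum] at *
        rw [ha, mul_zero] }
  obtain ⟨H, h1, h2⟩ := fibreA e.range.subtype Subtype.val_injective
    (fun a => e.rangeRestrict (MvPolynomial.C (MvPolynomial.C a)))
    (fun a => (descA_C x Ψ _).trans (frT_C x a)) (t := τm x T)
    (isUnit_iff_constantCoeff.2 (by rw [frT_const]; exact hx.isUnit))
    (fun l a => ⟨τm x T * pderiv F l a, by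
      obtain ⟨p, hp⟩ := a.2
      exact ⟨D l p, by rw [← hp]; exact D1 l p⟩⟩) (fun l a => rfl) S
    (fun l => of fun a b => e.rangeRestrict (MvPolynomial.C ((τ l • 1 - (B l)ᵀ :
      Matrix A A (MvPolynomial σ F)) b a)))
    (fun l ρ h => by
      refine Eq.trans (Finset.sum_congr rfl fun a _ => ?_) (st l _ h)
      congr 1
      rw [Pi.add_apply, Subring.coe_add, mulVec, dotProduct, AddSubmonoidClass.coe_finsetSum]
      refine congrArg₂ _ rfl (Finset.sum_congr rfl fun b _ => ?_)
      rw [Subring.coe_mul, mul_comm, ← descA_C x Ψ]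
      rfl)
    (F := fun a => constantCoeff (Φ a)) fun ρ h => by
      simpa [dotProduct] using congrArg constantCoeff (show ∑ a, (ρ a).1 * Φ a = 0 from h)
  choose h hh using fun a => (H a).2
  refine ⟨h, fun a => (congrArg _ (hh a)).trans (h2 a), zero_famM (t := τm s (TM ℂ T))
    (F := (fun h : A → MvPolynomial κ (MvPolynomial σ F) => ∑ a, evN s Ψ' (cN (h a)) * y a) ''
      {h | ∀ ρ : A → MvPolynomial κ (MvPolynomial σ F), ∑ a, e (ρ a) * Φ a = 0 →
        ∑ a, e (ρ a) * e (h a) = 0}) ?_ ?_ ?_ _ ⟨h, fun ρ hρ => ?_, rfl⟩⟩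
  · rw [isUnit_iff_constantCoeff, frT_const]
    rw [MvPolynomial.eval_map]
    exact hs.isUnit
  · rintro _ ⟨h, hh, rfl⟩
    have a1 := link (∑ a, q a * cN (h a)) (by
      ext n
      refine (Module.forall_dual_apply_eq_zero_iff F _).1 fun π => ?_
      choose p hp using fun a => descA_mem π x Ψ (q a)
      have b1 := hh p (by
        simpa only [map_sum, descA_mul, map_zero, ← hp] using congrArg (descA_rep π) hq)
      rw [← descA_coeff]
      simp only [map_sum (evN _ _), map_mul, descA_cN, map_sum (descA_rep π), descA_mul, ← hp]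
      rw [b1, map_zero])
    rw [isUnit_iff_constantCoeff, isUnit_iff_ne_zero, not_not]
    simpa only [map_sum, map_mul, hq0, map_zero, mul_comm] using congrArg constantCoeff a1
  · rintro _ ⟨h, hh, rfl⟩ l
    refine ⟨fun a => D l (h a) + ∑ b, h b * MvPolynomial.C (B l b a), fun ρ hρ => ?_, ?_⟩
    · have b1 := hh (fun a => D l (ρ a) + ∑ b, ρ b * MvPolynomial.C ((τ l • 1 - (B l)ᵀ :
        Matrix A A (MvPolynomial σ F)) b a)) (by
          simpa only [e, map_add, map_sum, map_mul, D1, descA_C] using st l _ hρ)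
      simp only [e, map_add, map_sum, map_mul, D1, descA_C] at b1 ⊢
      refine descA_orth (c := τm x (τ l)) (hh ρ hρ) (Eq.trans ?_ b1)
      simp [one_apply, apply_ite (τm x)]
    · rw [← descA_der (hy l)]
      simp only [map_add, map_sum, map_mul, D2, MvPolynomial.map_C, descA_C, map_apply]
  · simpa [dotProduct, hh] using congrArg Subtype.val (h1 (fun a => e.rangeRestrict (ρ a)) hρ)

end

end Pool.Agent.Lib.MP_5591bc_ag.N
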