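import Pool.Agent.Lib.MP_5591bc_ag.N.Brg
import Pool.Agent.Lib.MP_5591bc_ag.N.DescA
import Pool.Agent.Lib.MP_5591bc_ag.M.Desc
import Pool.Agent.Lib.MP_5591bc_ag.M.SerP

/-! From the ideal of the Galois group to the degree property. -/

namespace Pool.Agent.Lib.MP_5591bc_ag.N

open Matrix Filter Topology MvPowerSeries G R W M

noncomputable section

variable {σ K ν : Type*} [Fintype σ] [DecidableEq σ] [Field K] [Algebra K ℂ] [Fintype ν]
  [DecidableEq ν] {T : MvPolynomial σ K} {B : σ → Matrix ν ν (MvPolynomial σ K)}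
  {U U' : Set (σ → ℂ)} {P P' : (σ → ℂ) → Matrix ν ν ℂ}

theorem lam_dotN {δ : ℕ} {Z : Matrix ν ν ℂ} (hZ : Z.det ≠ 0) {F : Mo δ ν → ℂ} {C0 : Matrix ν ν ℂ}
    (hF : F ⬝ᵥ mono δ (Z * C0) = 0) (Y : Matrix ν ν ℂ) :
    (F ᵥ* Adj δ (Y * Z⁻¹)) ⬝ᵥ mono δ (Y * C0) = 0 := by
  have e := Adj_mono δ (Y * Z⁻¹) (Z * C0)
  rw [Matrix.mul_assoc, nonsing_inv_mul_cancel_left _ _ hZ.isUnit] at e
  rw [← dotProduct_mulVec, e, dotProduct_smul, hF, smul_zero]

theorem nd_link {s x : σ → ℂ} (h : Link s P x P') (C1 Z : Matrix ν ν ℂ) {A : Type*} [Fintype A]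
    (q : A → MvPolynomial (ν × ν) (MvPolynomial σ ℂ)) (w : A → MvPolynomial (ν × ν) ℂ)
    {f : Matrix ν ν ℂ → A → ℂ}
    (hw : ∀ Y a, MvPolynomial.eval (fun e : ν × ν => Y e.1 e.2) (w a) = f Y a) :
    (∀ᶠ t in 𝓝 s, ∑ a, vlN (uuN P C1) (q a) t * f (P t * Z) a = 0) ↔
      ∀ᶠ t in 𝓝 x, ∑ a, vlN (uuN P' C1) (q a) t * f (P' t * Z) a = 0 := by
  have e : ∀ (Q : (σ → ℂ) → Matrix ν ν ℂ) t,
      vlN (fun t (a : Bool × ν × ν) => (Q t * cond a.1 Z C1) a.2.1 a.2.2)
        (∑ a, MvPolynomial.rename (Prod.mk false) (q a) *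
          MvPolynomial.rename (Prod.mk true) (MvPolynomial.map MvPolynomial.C (w a))) t =
      ∑ a, vlN (uuN Q C1) (q a) t * f (Q t * Z) a := fun Q t => by
    simp only [vlN, MvPolynomial.eval₂_sum, MvPolynomial.eval₂_mul, MvPolynomial.eval₂_rename,
      MvPolynomial.eval₂_map, ← hw]
    refine Finset.sum_congr rfl fun a _ => congrArg₂ _ rfl ?_
    rw [MvPolynomial.eval, MvPolynomial.coe_eval₂Hom]
    congr 1
    ext c
    simp
  simp only [← e]
  exact h.mv (fun b : Bool => cond b Z C1) _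

theorem nd_tay {A κ : Type*} [Fintype A] {p : σ → ℂ} {u : (σ → ℂ) → κ → ℂ}
    (hu : ∀ a, AnalyticAt ℂ (u · a) p) {f : A → (σ → ℂ) → ℂ} (hf : ∀ a, AnalyticAt ℂ (f a) p)
    (q : A → MvPolynomial κ (MvPolynomial σ ℂ)) :
    (∀ᶠ t in 𝓝 p, ∑ a, vlN u (q a) t * f a t = 0) ↔
      ∑ a, evN p (fun a => tayM (u · a) p) (q a) * tayM (f a) p = 0 := by
  have e := fun a => (tay_vlN hu (q a)).1
  rw [← tayM_eq_zero_iff (Finset.analyticAt_fun_sum _ fun a _ => (e a).fun_mul (hf a)),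
    tayM_sum _ fun a _ => (e a).fun_mul (hf a)]
  simp only [tayM_mul (e _) (hf _), tay_vlC hu]

omit [Fintype ν] [DecidableEq ν] in
theorem nd_mono {Y : (σ → ℂ) → Matrix ν ν ℂ} {p : σ → ℂ} (h : ∀ i j, AnalyticAt ℂ (Y · i j) p)
    (δ : ℕ) (μ : Mo δ ν) : AnalyticAt ℂ (fun z => mono δ (Y z) μ) p ∧
      tayM (fun z => mono δ (Y z) μ) p = mono δ (tayX Y p) μ := by
  have a1 : ∀ o, AnalyticAt ℂ (fun z => hatg (Y z) o) p := by
    rintro (_ | a)
    exacts [analyticAt_const, h _ _]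
  simp only [mono, tens]
  refine ⟨Finset.analyticAt_fun_prod _ fun l _ => a1 _,
    (tayM_prod _ fun l _ => a1 _).trans (Finset.prod_congr rfl fun l _ => ?_)⟩
  rcases μ l with _ | a
  exacts [(tayM_const 1).trans (map_one _), rfl]

theorem descN (ho : IsOpen U) (hP : FundM T B U P) {s : σ → ℂ} (hs : s ∈ U)
    (hT : MvPolynomial.aeval s T ≠ 0) (ho' : IsOpen U') (hP' : FundM T B U' P') {x : σ → K}
    (hx : pc x ∈ U') (hT' : MvPolynomial.eval x T ≠ 0) (link : Link s P (pc x) P') {δ : ℕ}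
    {F : Mo δ ν → K} {C1 C0 : Matrix ν ν ℂ} {z : Matrix ν ν K}
    (hz : z.map (algebraMap K ℂ) = P' (pc x) * C1)
    (h : LiftN P C1 δ s ((fun μ => algebraMap K ℂ (F μ)) ᵥ* Adj δ (P s * (P' (pc x))⁻¹))
      (mono δ (P s * C0))) : LGN P' C1 C0 δ x z F := by
  obtain ⟨q, q2, q1⟩ := h
  have eX : ∀ Y : Matrix ν ν ℂ,
      (Xm ν).map (MvPolynomial.eval fun e : ν × ν => Y e.1 e.2) = Y := fun Y => by
    ext i j
    simp [Xm]
  simp only [vecMul_vecMul, ← Adj_mul, Matrix.mul_assoc,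
    nonsing_inv_mul_cancel_left _ _ (hP s hs).1.isUnit] at q1
  have q3 := (nd_link link C1 (P' (pc x))⁻¹ q (pX δ fun μ => algebraMap K ℂ (F μ))
    (f := fun Y => (fun μ => algebraMap K ℂ (F μ)) ᵥ* Adj δ Y) fun Y a => by
      have e := Adj_map (MvPolynomial.eval fun e : ν × ν => Y e.1 e.2) δ (Xm ν)
      rw [eX] at e
      simp [← e, pX, vecMul, dotProduct]).1 q1
  have au := uuN_an hP C1 hs
  have au' := uuN_an hP' C1 hx
  have ag := fun μ => lamM_ana hP' x F μ hx (δ := δ)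
  have am := nd_mono (serG_ana hP C0 hs) δ
  have eu := funext (uuN_tay ho' hP' hx hT' hz)
  have q4 := (nd_tay au' ag q).1 q3
  simp only [tayM_self ho' hP' hx hT' F] at q4
  rw [eu] at q4
  have oP : ∀ l, τm s (TM ℂ T) • (tayX P s).map (pderiv ℂ l) =
      (BM ℂ B l).map (τm s) * tayX P s := fun l => by
    simpa only [tayM_aeval, Matrix.map_map, Function.comp_def] using tayX_ode ho hP hs l
  have oY : ∀ l, τm s (TM ℂ T) • (tayX (fun t => P t * C0) s).map (pderiv ℂ l) =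
      (BM ℂ B l).map (τm s) * tayX (fun t => P t * C0) s := fun l => by
    have : (C0.map (C : ℂ → MvPowerSeries σ ℂ)).map (pderiv ℂ l) = 0 := by
      ext1 i j
      simp
    rw [tayX_mul hP _ hs, serG_mul, this, Matrix.mul_zero, add_zero, ← Matrix.smul_mul, oP,
      Matrix.mul_assoc]
  obtain ⟨g, g1, g2⟩ := desc_absN (τ := fun l => (δ : MvPolynomial σ K) * (B l).trace)
    (B := fun l => tB (Fin δ) (exg 0 (B l))) hT' hT (LserM_ode ho' hP' hx hT' δ F)
    (uuN_odeK ho' hP' hx hT' z) (y := fun μ => tayM (fun z => mono δ (P z * C0) μ) s)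
    (fun l μ => by
      simp only [(am _).2, dc_mono (oY l)]
      refine Finset.sum_congr rfl fun η _ => congrArg (· * _) ?_
      simp only [BM]
      rw [tB_map, exg_map _ (map_zero _), ← map_apply (f := τm s), tB_map,
        exg_map _ (map_zero _), map_zero, map_zero]) (uuN_ode ho hP C1 hs)
    (fun r hr => by
      have l1 := nd_link link C1 1 (fun _ : Unit => r) (fun _ => 1) (f := fun _ _ => 1)
        fun _ _ => map_one _
      simp only [Finset.univ_unique, Finset.sum_singleton, mul_one] at l1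
      rw [← eu, ← tay_vlC au', tayM_eq_zero_iff (tay_vlN au' r).1, ← l1] at hr
      rwa [← tay_vlC au, tayM_eq_zero_iff (tay_vlN au r).1]) q4
    fun μ => by
      rw [← tay_vlC au, constantCoeff_tayM (tay_vlN au _).1, constantCoeff_tayM (am μ).1, q2]
  refine ⟨g, fun μ => ?_, ?_⟩
  · have e1 := g1 μ
    simp only [evN_const, psiN_const] at e1
    refine e1.trans ((algebraMap K ℂ).injective ?_)
    have := congrArg constantCoeff (tayM_self ho' hP' hx hT' F μ)
    rw [constantCoeff_tayM (ag μ), lamM_self (hP' _ hx).1, constantCoeff_map] at this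
    exact this.symm
  · simpa only [vlN_cN, dotProduct] using (nd_link link C1 C0 (fun a => cN (g a)) (mono δ (Xm ν))
      (f := mono δ) fun Y a => by rw [mono_map, eX]).1
      ((nd_tay au (fun a => (am a).1) _).2 g2)

end

end Pool.Agent.Lib.MP_5591bc_ag.N
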