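import Pool.Agent.Lib.MP_5591bc_ag.M.Defs

/-! Connectedness and the degree `δ` property relative to a second matrix of functions, in several
variables. -/

namespace Pool.Agent.Lib.MP_5591bc_ag.N

open MvPolynomial M

noncomputable section

/-- `ℂ(t, Q)` is algebraically closed in the field generated by the entries of `P` on `U`: a
quotient `u / v` of polynomials in `t` and the entries of `P` that is a root of a non zero
polynomial `∑ p j * Y ^ j` over `ℂ[t, Q]` is a quotient `a / b` of elements of `ℂ[t, Q]`. -/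
def ConnRM {σ ν : Type*} (U : Set (σ → ℂ)) (P Q : (σ → ℂ) → Matrix ν ν ℂ) : Prop :=
  ∀ (u v : MvPolynomial (ν × ν) (MvPolynomial σ ℂ)) (n : ℕ)
    (p : ℕ → MvPolynomial (ν × ν) (MvPolynomial σ ℂ)),
    (∃ t ∈ U, valM P v t ≠ 0) → (∃ j ≤ n, ∃ t ∈ U, valM Q (p j) t ≠ 0) →
    (∀ t ∈ U, ∑ j ∈ Finset.range (n + 1),
      valM Q (p j) t * valM P u t ^ j * valM P v t ^ (n - j) = 0) →
    ∃ a b : MvPolynomial (ν × ν) (MvPolynomial σ ℂ), (∃ t ∈ U, valM Q b t ≠ 0) ∧
      ∀ t ∈ U, valM Q b t * valM P u t = valM Q a t * valM P v t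

/-- The degree `δ` property of `y = P * C0` at the point `(x, z)` of the variety parametrised by
`(t, P t * C1)`: every polynomial `F` over `K` of degree at most `δ` vanishing at `y x` is
`H(x, z, X)` for a polynomial `H(t, Z, X)` over `K` vanishing at `(t, P' t * C1, P' t * C0)` for
all analytic continuations `P'` of `P`. -/
def GoodRM {K σ ν : Type*} [Field K] [Algebra K ℂ] [Fintype σ] [Fintype ν] (U : Set (σ → ℂ))
    (P : (σ → ℂ) → Matrix ν ν ℂ) (C1 C0 : Matrix ν ν ℂ) (δ : ℕ) (x : σ → K) (z : Matrix ν ν K) :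
    Prop :=
  ∀ F : MvPolynomial (ν × ν) K, F.totalDegree ≤ δ →
    aeval (fun a => (P (fun l => algebraMap K ℂ (x l)) * C0) a.1 a.2) F = 0 →
    ∃ H : MvPolynomial (σ ⊕ (ν × ν) ⊕ (ν × ν)) K,
      (∀ U' P', ContM U P U' P' → ∀ t ∈ U', aeval (Sum.elim t
        (Sum.elim (fun a => (P' t * C1) a.1 a.2) fun a => (P' t * C0) a.1 a.2)) H = 0) ∧
      aeval (Sum.elim (fun l => C (x l)) (Sum.elim (fun a => C (z a.1 a.2)) X)) H = F

end

end Pool.Agent.Lib.MP_5591bc_ag.N
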