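import Pool.Agent.Lib.MP_5591bc_ag.N.Gap
import Pool.Agent.Lib.MP_5591bc_ag.M.CovB
import Pool.Agent.Lib.MP_5591bc_ag.W.MainU

/-! The exceptional points lie on a hypersurface of small degree. -/

namespace Pool.Agent.Lib.MP_5591bc_ag.N

open Matrix Filter Topology G R W M Metric MvPolynomial

noncomputable section

variable {σ K ι : Type} [Fintype σ] [DecidableEq σ] [Fintype ι] [Field K] [NumberField K]
  [Algebra K ℂ] {n : ℕ} {T : MvPolynomial σ K}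
  {B : σ → Matrix (Fin n) (Fin n) (MvPolynomial σ K)} {T₀ : MvPolynomial σ ℂ}
  {l : ι → MvPolynomial σ ℂ} {ε : ℝ}

theorem hyp_natN (T0 : T ≠ 0) (h : GalM T B) (hl : ∀ i, (l i).totalDegree ≤ 1)
    (hf : TM ℂ T = T₀ * ∏ i, l i) (ε0 : 0 < ε) : ∃ C : ℕ, 0 < C ∧ ∀ (δ : ℕ) (U : Set (σ → ℂ))
    (P : (σ → ℂ) → Matrix (Fin n) (Fin n) ℂ) (C1 C0 : Matrix (Fin n) (Fin n) ℂ), IsOpen U →
      Convex ℝ U → FundM T B U P → ConnRM U P (fun t => P t * C1) → ∀ d L : ℕ, 0 < d → 0 < L → ∀ S : Finset (σ → ℂ), (∀ t ∈ S, t ∈ U ∧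
        (∀ z, eval z T₀ = 0 → ε * (1 + ‖t‖) ≤ ‖t - z‖) ∧
        (∀ j, ∃ q : Polynomial ℤ, q ≠ 0 ∧ (∀ i, |(q.coeff i : ℝ)| ≤ 2 ^ L) ∧
          Polynomial.aeval (t j) q = 0) ∧
        ∃ (E : IntermediateField K ℂ) (x : σ → E) (z : Matrix (Fin n) (Fin n) E), pc x = t ∧
          z.map (algebraMap E ℂ) = P t * C1 ∧ FiniteDimensional ℚ E ∧
          Module.finrank ℚ E ≤ d ∧ ¬ GoodRM U P C1 C0 δ x z) →
        Hyp (S : Set (σ → ℂ)) ((C * (δ + 1) * (d * L)) ^ (C * (δ + 1) ^ n ^ 2)) := by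
  classical
  obtain ⟨c₀, e, hg⟩ := gapN h
  obtain ⟨c₁, hL⟩ := gf_gbM h
  obtain ⟨c₂, c0, hc⟩ := cvb_main T₀ l hl ε0
  obtain ⟨k, hk⟩ : ∃ k, k = Fintype.card σ := ⟨_, rfl⟩
  obtain ⟨b, hb⟩ : ∃ b, b = c₂ * (c₁ + 1) + 2 * (k + 1) := ⟨_, rfl⟩
  obtain ⟨C, C00, he⟩ := mu_num T.totalDegree c₀ b (e + (Fintype.card ι + k)) (n ^ 2)
  refine ⟨C, C00, fun δ U P C1 C0 ho hU hP hC d L d0 L0 S hS => ?_⟩
  refine Hyp.mono ?_ subset_rfl (he δ (d * L) (Nat.mul_pos d0 L0))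
  obtain ⟨N, hN⟩ : ∃ N, N = (δ + 1) ^ n ^ 2 := ⟨_, rfl⟩
  replace hg := hg δ N (by simp [hN, sq])
  rw [← hN]
  generalize c₀ * δ = c at hg ⊢
  obtain ⟨m, hm⟩ : ∃ m, m = (L + 1) * d := ⟨_, rfl⟩
  have m0 : 0 < m := hm ▸ by positivity
  have x0 : 0 < d * L := Nat.mul_pos d0 L0
  have x1 : d ≤ d * L := Nat.le_mul_of_pos_right _ L0
  have x3 : d * L ≤ (d * L) ^ 2 := Nat.le_self_pow two_ne_zero _
  have x4 : d * d ≤ (d * L) ^ 2 := by rw [sq]; exact Nat.mul_le_mul x1 x1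
  have x5 : m ≤ 2 * (d * L) := by rw [hm, add_mul, mul_comm L, one_mul]; omega
  have x6 := Nat.mul_le_mul_left c (x5.trans (Nat.mul_le_mul_left 2 x3))
  have x7 : m * d ≤ 2 * (d * L) ^ 2 := by rw [sq, ← mul_assoc]; exact Nat.mul_le_mul x5 x1
  have x8 := Nat.mul_le_mul_left (c₂ * (c₁ + 1)) x7
  have x9 := Nat.mul_le_mul_left (k + 1) (show 2 * m + 1 ≤ 6 * (d * L) ^ 2 by omega)
  obtain ⟨Λ, hΛ⟩ : ∃ Λ, Λ = (2 * c + 3 * b + 8) * (d * L) ^ 2 := ⟨_, rfl⟩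
  have eΛ : Λ = c * (2 * (d * L) ^ 2) + c₂ * (c₁ + 1) * (2 * (d * L) ^ 2) +
      (k + 1) * (6 * (d * L) ^ 2) + (c₂ * (c₁ + 1) + 8) * (d * L) ^ 2 := by rw [hΛ, hb]; ring
  have y1 : c₂ * ((c₁ + 1) * (m * d)) ≤ Λ := by rw [← mul_assoc]; omega
  have y2 : d * d ≤ Λ := by rw [add_mul _ 8] at eΛ; omega
  have eT : ∀ z : σ → ℂ, eval z (T₀ * ∏ i, l i) = aeval z T := fun z => by
    rw [← hf, eval_map, aeval_def]
  have bad : ∀ t ∈ S, BadN K P C1 C0 d δ (2 ^ m) t := fun t ht => by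
    obtain ⟨-, -, hq, E, x, z, rfl, hz, hE, hd, hb⟩ := hS t ht
    have : NumberField E := {}
    have := mt (goodRM_of (δ := δ) (x := x) (z := z) (C1 := C1) (C0 := C0) ho hU.isPreconnected
      (fun t ht i j => ((hP t ht).2 i j).1) (hS _ ht).1) hb
    push Not at this
    obtain ⟨F, hF, hn⟩ := this
    refine ⟨E, inferInstance, x, F, z, rfl, hz, hd, fun j => ?_, hF, hn⟩
    obtain ⟨q, q0, q1, q2⟩ := hq j
    have qy : Polynomial.aeval (x j) q = 0 := (algebraMap E ℂ).injective (by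
      rw [map_zero, ← q2]
      exact (Polynomial.aeval_algHom_apply (algebraMap E ℂ).toIntAlgHom _ q).symm)
    refine ⟨2 * 2 ^ L, ?_, Ht_of_poly q0 q1 qy, ?_⟩
    · linarith [one_le_pow₀ (one_le_two (α := ℝ)) (n := L)]
    · rw [← pow_succ', ← pow_mul, hm]
      exact pow_le_pow_right₀ one_le_two (Nat.mul_le_mul_left _ hd)
  obtain ⟨t, f, t1, t2, t3⟩ := hc ((c₁ + 1) * (m * d)) (by positivity)
    (S.filter fun z => aeval z T ≠ 0 : Finset (σ → ℂ)) fun z hz => by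
      obtain ⟨z1, z2⟩ := Finset.mem_filter.1 hz
      obtain ⟨E, _, x, -, _, rfl, -, hd, hx, -⟩ := bad z z1
      have md : m ≤ m * d := Nat.le_mul_of_pos_right _ d0
      rw [← aeval_TM (K := E), aeval_pc] at z2
      refine ⟨(pi_norm_le_iff_of_nonneg (by positivity)).2 fun j => ((hx j).ht.norm_le _).trans
        (pow_le_pow_right₀ one_le_two (by rw [add_mul]; omega)), (hS _ z1).2.1, ?_⟩
      rw [eT, ← aeval_TM (K := E), aeval_pc]
      refine le_trans (inv_anti₀ (by positivity) (pow_le_pow_right₀ one_le_two ?_))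
        ((hL E m x m0 hx fun e => z2 (by rw [e, map_zero])).2 _)
      rw [add_mul, ← mul_assoc]
      exact (Nat.mul_le_mul_left _ hd).trans (Nat.le_add_right _ _)
  have h1 : Hyp {z : σ → ℂ | aeval z T = 0} T.totalDegree :=
    ⟨TM ℂ T, (map_ne_zero_iff _ (map_injective _ (algebraMap K ℂ).injective)).2 T0,
      Finset.sup_mono (support_map_subset _ _), fun z hz => by rwa [eval_map, ← aeval_def]⟩
  have h2 := Hyp.cover (A := (S.filter fun z => aeval z T ≠ 0 : Finset (σ → ℂ)))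
    (n := (Λ + N + 2) ^ (e * (N + 1)))
    (Cs := t.image fun a => (S.filter fun z => aeval z T ≠ 0).filter fun z => f z = a)
    (fun S' hS' => ?_) fun z hz => ⟨_, Finset.mem_image_of_mem _ (t2 z hz),
      Finset.mem_filter.2 ⟨hz, rfl⟩⟩
  · refine (h1.union h2).mono (fun z hz => ?_) (Nat.add_le_add_left ?_ _)
    · by_cases e : aeval z T = 0
      exacts [Or.inl e, Or.inr (Finset.mem_coe.2 (Finset.mem_filter.2 ⟨hz, e⟩))]
    rw [← hΛ]
    refine le_trans ?_ ((Nat.le_mul_of_pos_right _ (by positivity)).trans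
      (Nat.le_mul_of_pos_left _ (Nat.mul_pos (by omega) (by omega))))
    rw [add_mul, pow_add, mul_comm]
    refine Nat.mul_le_mul_left _ (Finset.card_image_le.trans (t1.trans ?_))
    rw [← hk]
    exact (Nat.pow_le_pow_left (by omega) _).trans
      (Nat.pow_le_pow_right (by omega) (Nat.le_mul_of_pos_right _ N.succ_pos))
  obtain ⟨a, -, rfl⟩ := Finset.mem_image.1 hS'
  rcases Finset.eq_empty_or_nonempty
    ((S.filter fun z => aeval z T ≠ 0).filter fun z => f z = a) with e0 | ⟨s, hs⟩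
  · rw [e0, Finset.coe_empty]
    exact hyp_empty.mono subset_rfl (Nat.zero_le _)
  obtain ⟨s1, s2⟩ := Finset.mem_filter.1 hs
  refine hg m d Λ s U P C1 C0 m0 (by omega) (by rw [← hk]; omega) y2 ho hU hP hC _ hs fun x hx => ?_
  obtain ⟨a1, a2⟩ := Finset.mem_filter.1 hx
  have a3 := (Finset.mem_filter.1 a1).1
  refine ⟨(hS x a3).1, fun y hy u hu => ?_, bad x a3⟩
  rw [← eT]
  exact t3 x s s1 (a2.trans s2.symm) y
    (hy.trans (inv_anti₀ (by positivity) (pow_le_pow_right₀ one_le_two y1))) u hu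

theorem hypRU (T0 : T ≠ 0) (h : GalM T B) (hl : ∀ i, (l i).totalDegree ≤ 1)
    (hf : map (algebraMap K ℂ) T = T₀ * ∏ i, l i) (ε0 : 0 < ε) : ∃ C : ℕ, ∀ (δ : ℕ)
    (U : Set (σ → ℂ)) (P : (σ → ℂ) → Matrix (Fin n) (Fin n) ℂ)
      (C1 C0 : Matrix (Fin n) (Fin n) ℂ), IsOpen U → Convex ℝ U → FundM T B U P →
      ConnRM U P (fun t => P t * C1) → ∀ (d : ℕ) (H : ℝ), 2 ≤ H → ∃ Q : MvPolynomial σ ℂ, Q ≠ 0 ∧
        (Q.totalDegree : ℝ) ≤ (C * (δ + 1) * d * Real.log H) ^ (C * (δ + 1) ^ n ^ 2) ∧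
        ∀ t ∈ U, (∀ z, eval z T₀ = 0 → ε * (1 + ‖t‖) ≤ ‖t - z‖) →
          (∀ j, ∃ q : Polynomial ℤ, q ≠ 0 ∧ (∀ i, |(q.coeff i : ℝ)| ≤ H) ∧
            Polynomial.aeval (t j) q = 0) →
          ∀ (E : IntermediateField K ℂ) (x : σ → E) (z : Matrix (Fin n) (Fin n) E),
            (∀ j, (x j : ℂ) = t j) → (∀ i j, (z i j : ℂ) = (P t * C1) i j) →
            FiniteDimensional ℚ E → Module.finrank ℚ E ≤ d → ¬ GoodRM U P C1 C0 δ x z →
              eval t Q = 0 := by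
  obtain ⟨C, C00, hg⟩ := hyp_natN T0 h hl hf ε0
  refine ⟨4 * C, fun δ U P C1 C0 ho hU hP hC d H H2 => ?_⟩
  have l2 : Real.log 2 ≤ Real.log H := Real.log_le_log two_pos H2
  have l0 := Real.log_two_gt_d9
  rcases Nat.eq_zero_or_pos d with rfl | d0
  · refine ⟨1, one_ne_zero, ?_, fun t _ _ _ E _ _ _ _ _ hd =>
      absurd Module.finrank_pos (not_lt.2 hd)⟩
    rw [totalDegree_one]
    exact Nat.cast_zero.trans_le (pow_nonneg (by simp) _)
  obtain ⟨L, L0, L1, L2⟩ : ∃ L : ℕ, 0 < L ∧ H ≤ 2 ^ L ∧ (L : ℝ) ≤ 4 * Real.log H := by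
    refine ⟨⌈2 * Real.log H⌉₊, Nat.ceil_pos.2 (by linarith), ?_, ?_⟩
    · rw [← Real.log_le_log_iff (by linarith) (by positivity), Real.log_pow]
      nlinarith [Nat.le_ceil (2 * Real.log H)]
    · linarith [Nat.ceil_lt_add_one (show 0 ≤ 2 * Real.log H by linarith)]
  obtain ⟨Q, Q0, Q1, Q2⟩ := hyp_of_finset (A := {t | t ∈ U ∧ _})
    fun S e => hg δ U P C1 C0 ho hU hP hC d L d0 L0 S fun t ht => e ht
  refine ⟨Q, Q0, ?_, fun t tU a b E x z hx hz f hd hb => Q2 t ⟨tU, a, fun j => ?_, E, x, z,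
    funext hx, Matrix.ext hz, f, hd, hb⟩⟩
  · have k1 : Q.totalDegree ≤ (C * (δ + 1) * (d * L)) ^ (4 * C * (δ + 1) ^ n ^ 2) :=
      Q1.trans (Nat.pow_le_pow_right (by positivity) (by gcongr; omega))
    refine (Nat.cast_le.2 k1).trans ?_
    push_cast
    refine pow_le_pow_left₀ (by positivity) ?_ _
    calc _ ≤ (C * (δ + 1) * (d * (4 * Real.log H)) : ℝ) := by gcongr
      _ = _ := by ring
  · obtain ⟨q, q0, q1, q2⟩ := b j
    exact ⟨q, q0, fun i => (q1 i).trans L1, q2⟩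

end

end Pool.Agent.Lib.MP_5591bc_ag.N
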