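import Pool.Agent.Lib.MP_5591bc_ag.N.Defs
import Pool.Agent.Lib.MP_5591bc_ag.M.Set

/-! Systems over an algebra of series in several variables stable under the derivations. -/

namespace Pool.Agent.Lib.MP_5591bc_ag.N

open Matrix Filter Topology MvPowerSeries G R W M

noncomputable section

variable {σ : Type*}

/-- expansion at `x` of a polynomial in `t` and in symbols for the series `Ψ` -/
def evN {F κ : Type*} [Field F] (x : σ → F) (Ψ : κ → MvPowerSeries σ F) :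
    MvPolynomial κ (MvPolynomial σ F) →+* MvPowerSeries σ F := MvPolynomial.eval₂Hom (τm x) Ψ

/-- the algebra generated by the variables and the series `Ψ` -/
def SN {F κ : Type*} [Field F] (Ψ : κ → MvPowerSeries σ F) : Subalgebra F (MvPowerSeries σ F) :=
  Algebra.adjoin F (Set.range X ∪ Set.range Ψ)

/-- stability under the `t ∂_l` -/
def DN {F : Type*} [Field F] (t : MvPowerSeries σ F) (S : Subalgebra F (MvPowerSeries σ F)) :
    Prop := ∀ l, ∀ p ∈ S, t * pderiv F l p ∈ S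

/-- value at `t` of a polynomial in `t` and in symbols for the functions `u` -/
def vlN {F κ : Type*} [Field F] [Algebra F ℂ] (u : (σ → ℂ) → κ → ℂ)
    (q : MvPolynomial κ (MvPolynomial σ F)) (t : σ → ℂ) : ℂ :=
  MvPolynomial.eval₂ (MvPolynomial.aeval t).toRingHom (u t) q

/-- complex coefficients -/
abbrev cN {F κ : Type*} [Field F] [Algebra F ℂ] (q : MvPolynomial κ (MvPolynomial σ F)) :
    MvPolynomial κ (MvPolynomial σ ℂ) := MvPolynomial.map (MvPolynomial.map (algebraMap F ℂ)) q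

/-- the entries of `P t * C1` -/
def uuN {ν : Type*} [Fintype ν] (P : (σ → ℂ) → Matrix ν ν ℂ) (C1 : Matrix ν ν ℂ) (t : σ → ℂ)
    (a : ν × ν) : ℂ := (P t * C1) a.1 a.2

/-- the system of the entries -/
def BU {S ν : Type*} [CommRing S] [DecidableEq ν] (B : σ → Matrix ν ν S) (l : σ) :
    Matrix (ν × ν) (ν × ν) S := of fun a b => if a.2 = b.2 then B l a.1 b.1 else 0

/-- the series at `x` of the matrix solution with value `z` -/
def psiN {K ν : Type*} [Field K] [Fintype ν] [DecidableEq ν] [Fintype σ] [DecidableEq σ]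
    (T : MvPolynomial σ K) (B : σ → Matrix ν ν (MvPolynomial σ K)) (x : σ → K) (z : Matrix ν ν K)
    (a : ν × ν) : MvPowerSeries σ K :=
  (GbM T B x * z.map C : Matrix ν ν (MvPowerSeries σ K)) a.1 a.2

/-- quotients of elements of `𝒜` that are algebraic over `S` are quotients of elements of `S` -/
def ConnTN (S : Subalgebra ℂ (MvPowerSeries σ ℂ)) (𝒜 : Set (MvPowerSeries σ ℂ)) : Prop :=
  ∀ u ∈ 𝒜, ∀ v ∈ 𝒜, ∀ (n : ℕ) (p : ℕ → MvPowerSeries σ ℂ), (∀ j, p j ∈ S) → v ≠ 0 →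
    (∃ j ≤ n, p j ≠ 0) → ∑ j ∈ Finset.range (n + 1), p j * u ^ j * v ^ (n - j) = 0 →
    ∃ a ∈ S, ∃ b ∈ S, b ≠ 0 ∧ b * u = a * v

/-- the germs of `P` at `s` and of `P'` at `x` satisfy the same relations over `ℂ[t]` -/
def Link [Fintype σ] {ν : Type*} (s : σ → ℂ) (P : (σ → ℂ) → Matrix ν ν ℂ) (x : σ → ℂ)
    (P' : (σ → ℂ) → Matrix ν ν ℂ) : Prop :=
  ∀ q, (∀ᶠ t in 𝓝 s, valM P q t = 0) ↔ ∀ᶠ t in 𝓝 x, valM P' q t = 0

variable {K ν : Type*} [Field K] [Algebra K ℂ] [Fintype ν] [DecidableEq ν] [Fintype σ]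

/-- `m` is the value at `s` of a relation over `ℂ[t, P C1]` of the horizontal covector `u` -/
def LiftN (P : (σ → ℂ) → Matrix ν ν ℂ) (C1 : Matrix ν ν ℂ) (δ : ℕ) (s : σ → ℂ)
    (u m : Mo δ ν → ℂ) : Prop :=
  ∃ q : Mo δ ν → MvPolynomial (ν × ν) (MvPolynomial σ ℂ), (∀ μ, vlN (uuN P C1) (q μ) s = m μ) ∧
    ∀ᶠ t in 𝓝 s, ∑ μ, vlN (uuN P C1) (q μ) t * (u ᵥ* Adj δ (P t * (P s)⁻¹)) μ = 0

/-- linear form of the degree `δ` property, near `x` -/
def LGN (P : (σ → ℂ) → Matrix ν ν ℂ) (C1 C0 : Matrix ν ν ℂ) (δ : ℕ) (x : σ → K)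
    (z : Matrix ν ν K) (F : Mo δ ν → K) : Prop :=
  ∃ h : Mo δ ν → MvPolynomial (ν × ν) (MvPolynomial σ K),
    (∀ μ, MvPolynomial.eval₂ (MvPolynomial.eval x) (fun a => z a.1 a.2) (h μ) = F μ) ∧
    ∀ᶠ t in 𝓝 (pc x), (fun μ => vlN (uuN P C1) (h μ) t) ⬝ᵥ mono δ (P t * C0) = 0

end

end Pool.Agent.Lib.MP_5591bc_ag.N
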